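import Pool.Agent.W973.IP.Defs

/-!
Project IP (MP_47d501_lc), part IP-TRI: `Good`, `Bad` or a Fritz John point with `v = c`.
-/

set_option autoImplicit false

namespace Pool.Agent.W505.IP

open Pool.Agent.W973.IP MvPolynomial

theorem tri (h1 : S_FJE) (h2 : S_DER) (h3 : S_COER) : S_TRI := by
  intro n P a hP c e hc he hG hB
  unfold Good at hG
  unfold Bad at hB
  push Not at hG hB
  obtain ⟨u₀, hu₀⟩ := hB
  obtain ⟨B, hBd⟩ := h3 n P a hP e (max c (‖u₀‖ + 1)) he
  obtain ⟨hcont, hgu, hdu, hdw⟩ := h2 n P a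
  have hc' : Continuous fun p : Vec n × Vec n => G P a c e p.1 p.2 := by
    have h4 : Continuous fun p : Vec n × Vec n => ((c, e, p.1, p.2) : ℝ × ℝ × Vec n × Vec n) := by
      fun_prop
    have h5 := hcont.comp h4
    simp only [Function.comp_def] at h5
    exact h5
  have hB1 : ∀ u w : Vec n, ‖u - u₀‖ ≤ 1 → G P a c e u w ≤ c → ‖w‖ ≤ B := by
    intro u w hu hw
    refine hBd c e u w hc.le (le_max_left _ _) le_rfl ?_ (hw.trans (le_max_left _ _))
    refine le_trans ?_ (le_max_right _ _)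
    have h5 : ‖u‖ ≤ ‖u - u₀‖ + ‖u₀‖ := by
      have := norm_add_le (u - u₀) u₀
      rwa [sub_add_cancel] at this
    linarith
  obtain ⟨r, hr, w, lam, hpos, hsum, hinj, hval, hgw, hgl⟩ :=
    h1 n (G P a c e) (GU P a c e) (GW P a c e) u₀ c B hc' (hgu c e) (hdu c e) (hdw c e) hu₀
      (fun u hu => by
        obtain ⟨w, hw⟩ := hG u
        exact ⟨w, hw, hB1 u w hu hw⟩)
      (fun w hw => hB1 u₀ w (by simp) hw)
  exact ⟨r, hr, u₀, w, lam, ⟨hpos, hsum, hinj, hval, hgw, hgl⟩⟩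

end Pool.Agent.W505.IP
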